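import Pool.Agent.H92.LP.Sum

/-!
# MP_4d57ea_nt, LP, chapter (C): the Chebyshev argument (helper92)

If a positive proportion `η` of the `m ≤ x` have a divisor `> 9 x` of `m^3 + k` without prime factors `> x`, then a positive
proportion `δ = η / 20` of the `m ≤ x` have a prime factor `> x^(1 + δ)` of `m^3 + k`.
-/

set_option autoImplicit false

namespace Pool.Agent.H92.LP

open Finset Filter Topology

/-- the part of `F` composed of primes `> x` -/
theorem split {F x : ℕ} (hF : F ≠ 0) : ∃ r : ℕ, 1 ≤ r ∧ r ≤ F ∧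
    Real.log F = (∑ p ∈ Nat.primesLE x, (F.factorization p : ℝ) * Real.log p) + Real.log r ∧
    (F < (x + 1) ^ 3 → ∀ y : ℝ, 1 ≤ y → (∀ p : ℕ, p.Prime → p ∣ F → (p : ℝ) ≤ y) →
      (r : ℝ) ≤ y ^ 2 ∧ ((r : ℝ) ≤ y ∨ ∀ n : ℕ, n ∣ F → (∀ p : ℕ, p.Prime → p ∣ n → p ≤ x) →
        n * (x + 1) ^ 2 ≤ F)) := by
  obtain ⟨r, hr⟩ : ∃ r : ℕ, r = ∏ p ∈ F.primeFactors.filter (fun p => x < p), p ^ F.factorization p :=
    ⟨_, rfl⟩
  obtain ⟨s, hs⟩ : ∃ s : ℕ, s = ∏ p ∈ F.primeFactors.filter (fun p => ¬ x < p),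
    p ^ F.factorization p := ⟨_, rfl⟩
  have hrs : r * s = F := by
    rw [hr, hs, prod_filter_mul_prod_filter_not]
    exact Nat.prod_factorization_pow_eq_self hF
  have hr1 : 1 ≤ r := by
    rcases Nat.eq_zero_or_pos r with h | h
    · rw [h, zero_mul] at hrs
      exact absurd hrs.symm hF
    · exact h
  have hs1 : 1 ≤ s := by
    rcases Nat.eq_zero_or_pos s with h | h
    · rw [h, mul_zero] at hrs
      exact absurd hrs.symm hF
    · exact h
  have hrF : r ≤ F := Nat.le_of_dvd (Nat.pos_of_ne_zero hF) ⟨s, hrs.symm⟩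
  refine ⟨r, hr1, hrF, ?_, fun hx y hy hp => ?_⟩
  · have h1 : Real.log F = Real.log s + Real.log r := by
      rw [← Real.log_mul (by positivity) (by positivity), mul_comm]
      congr 1
      exact_mod_cast hrs.symm
    rw [h1]
    congr 1
    rw [hs]
    push_cast
    rw [Real.log_prod (fun p hp => by
      rw [mem_filter] at hp
      have := (Nat.prime_of_mem_primeFactors hp.1).pos
      positivity)]
    simp only [Real.log_pow]
    refine sum_subset (fun p hp => ?_) fun p hp hnp => ?_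
    · rw [mem_filter] at hp
      rw [Nat.mem_primesLE]
      exact ⟨by omega, Nat.prime_of_mem_primeFactors hp.1⟩
    · rw [Nat.mem_primesLE] at hp
      rw [mem_filter] at hnp
      have h2 : p ∉ F.primeFactors := fun h => hnp ⟨h, by omega⟩
      have h3 : F.factorization p = 0 := by
        rw [← Finsupp.notMem_support_iff, Nat.support_factorization]
        exact h2
      rw [h3, Nat.cast_zero, zero_mul]
  · obtain ⟨w, hw⟩ : ∃ w : ℕ, w = ∑ p ∈ F.primeFactors.filter (fun p => x < p), F.factorization p :=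
      ⟨_, rfl⟩
    have h1 : (x + 1) ^ w ≤ r := by
      rw [hw, hr, ← prod_pow_eq_pow_sum]
      refine prod_le_prod' fun p hp => ?_
      rw [mem_filter] at hp
      exact Nat.pow_le_pow_left (by omega) _
    have hw3 : w < 3 := by
      by_contra h
      push Not at h
      have h2 : (x + 1) ^ 3 ≤ (x + 1) ^ w := Nat.pow_le_pow_right (by omega) h
      omega
    have h2 : (r : ℝ) ≤ y ^ w := by
      rw [hw, hr, ← prod_pow_eq_pow_sum]
      push_cast
      refine prod_le_prod (fun p _ => by positivity) fun p hp' => ?_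
      rw [mem_filter] at hp'
      have h3 := hp p (Nat.prime_of_mem_primeFactors hp'.1) (Nat.dvd_of_mem_primeFactors hp'.1)
      exact pow_le_pow_left₀ (Nat.cast_nonneg _) h3 _
    refine ⟨h2.trans (pow_le_pow_right₀ hy (by omega)), ?_⟩
    rcases Nat.lt_or_ge w 2 with h3 | h3
    · left
      refine h2.trans ?_
      calc y ^ w ≤ y ^ 1 := pow_le_pow_right₀ hy (by omega)
        _ = y := pow_one y
    · right
      intro n hn hnp
      have h4 : Nat.Coprime n r := by
        rw [hr]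
        refine Nat.Coprime.prod_right fun p hp' => ?_
        rw [mem_filter] at hp'
        have hpp := Nat.prime_of_mem_primeFactors hp'.1
        refine Nat.Coprime.pow_right _ (Nat.Coprime.symm ((Nat.Prime.coprime_iff_not_dvd hpp).2 ?_))
        intro hd
        have := hnp p hpp hd
        omega
      have h5 : n ∣ s := by
        rw [← hrs] at hn
        exact h4.dvd_of_dvd_mul_left hn
      have h6 : n ≤ s := Nat.le_of_dvd (by omega) h5
      have h7 : (x + 1) ^ 2 ≤ r := (Nat.pow_le_pow_right (by omega) h3).trans h1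
      calc n * (x + 1) ^ 2 ≤ s * r := Nat.mul_le_mul h6 h7
        _ = F := by rw [mul_comm]; exact hrs

/-- lower bound for the sum of the logarithms -/
theorem sum_log_low {k : ℤ} (hk : ∀ a : ℤ, a ^ 3 ≠ k) : ∃ C : ℝ, 0 ≤ C ∧ ∀ x : ℕ, 1 ≤ x →
    3 * (x * Real.log x) - C * x ≤ ∑ m ∈ Icc 1 x, Real.log (FF k m) := by
  obtain ⟨K, hK⟩ : ∃ K : ℕ, K = 2 * k.natAbs + 2 := ⟨_, rfl⟩
  have hK1 : (1 : ℝ) ≤ K := by
    have : 1 ≤ K := by omega
    exact_mod_cast this
  have hlK : 0 ≤ Real.log K := Real.log_nonneg hK1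
  refine ⟨3 + Real.log K, by positivity, fun x hx => ?_⟩
  have h1 : ∀ m ∈ Icc 1 x, 3 * Real.log m - Real.log K ≤ Real.log (FF k m) := by
    intro m hm
    rw [mem_Icc] at hm
    have hm1 : (1 : ℝ) ≤ m := by exact_mod_cast hm.1
    have hF1 : 1 ≤ FF k m := Nat.one_le_iff_ne_zero.2 (FF_ne hk m)
    have h2 : m ^ 3 ≤ K * FF k m := by
      have h3 : m ^ 3 ≤ FF k m + k.natAbs := by
        have h4 : ((m : ℤ) ^ 3).natAbs ≤ ((m : ℤ) ^ 3 + k).natAbs + k.natAbs := by
          calc ((m : ℤ) ^ 3).natAbs = ((m : ℤ) ^ 3 + k - k).natAbs := by ring_nf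
            _ ≤ _ := Int.natAbs_sub_le _ _
        rw [Int.natAbs_pow, Int.natAbs_natCast] at h4
        exact h4
      have h5 : k.natAbs ≤ k.natAbs * FF k m := Nat.le_mul_of_pos_right _ hF1
      calc m ^ 3 ≤ FF k m + k.natAbs := h3
        _ ≤ FF k m + k.natAbs * FF k m := by omega
        _ ≤ K * FF k m := by
            rw [hK]
            nlinarith
    have h3 : ((m : ℝ)) ^ 3 ≤ K * FF k m := by exact_mod_cast h2
    have h4 := Real.log_le_log (by positivity) h3
    rw [Real.log_pow, Real.log_mul (by positivity) (by positivity)] at h4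
    push_cast at h4
    linarith
  refine le_trans ?_ (sum_le_sum h1)
  rw [sum_sub_distrib, ← mul_sum, sum_const, Nat.card_Icc, nsmul_eq_mul]
  have h2 : ∑ m ∈ Icc 1 x, Real.log m = Real.log (x.factorial : ℝ) := by
    have h0 : ∀ x : ℕ, ∑ m ∈ Icc 1 x, Real.log m = Real.log (x.factorial : ℝ) := by
      intro x
      induction x with
      | zero => simp
      | succ n ih =>
        rw [sum_Icc_succ_top (by omega), ih, Nat.factorial_succ, add_comm]
        push_cast
        rw [Real.log_mul (by positivity) (by positivity)]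
    exact h0 x
  rw [h2]
  have h3 := Stirling.le_log_factorial_stirling (n := x) (by omega)
  have hx1 : (1 : ℝ) ≤ x := by exact_mod_cast hx
  have h4 : 0 ≤ Real.log x := Real.log_nonneg hx1
  have h5 : 0 ≤ Real.log (2 * Real.pi) := Real.log_nonneg (by
    have := Real.pi_gt_three
    linarith)
  have h6 : ((x + 1 - 1 : ℕ) : ℝ) = x := by rw [Nat.add_sub_cancel]
  rw [h6]
  nlinarith

/-- **chapter (C)** -/
theorem cheb {k : ℤ} (hk : ∀ a : ℤ, a ^ 3 ≠ k)
    (hM : ∀ e : ℝ, 0 < e → ∀ᶠ x : ℕ in atTop,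
      ∑ p ∈ Nat.primesLE x, (rk k p : ℝ) * Real.log p / p ≤ (1 + e) * Real.log x)
    (hL : ∃ η : ℝ, 0 < η ∧ ∀ᶠ x : ℕ in atTop, ∃ G : Finset ℕ, G ⊆ Icc 1 x ∧ η * x ≤ G.card ∧
      ∀ m ∈ G, ∃ n : ℕ, 9 * x < n ∧ n ∣ FF k m ∧ ∀ p : ℕ, p.Prime → p ∣ n → p ≤ x) :
    ∃ δ : ℝ, 0 < δ ∧ ∀ᶠ x : ℕ in atTop, ∃ E : Finset ℕ, E ⊆ Icc 1 x ∧ δ * x ≤ E.card ∧
      ∀ m ∈ E, ∃ p : ℕ, p.Prime ∧ (x : ℝ) ^ (1 + δ) < p ∧ p ∣ FF k m := by
  classical
  obtain ⟨η, hη, hG⟩ := hL
  obtain ⟨δ, hδ⟩ : ∃ δ : ℝ, δ = min (η / 20) (1 / 20) := ⟨_, rfl⟩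
  have hδ0 : 0 < δ := by rw [hδ]; positivity
  have hδη : δ ≤ η / 20 := by rw [hδ]; exact min_le_left _ _
  have hδ1 : δ ≤ 1 / 20 := by rw [hδ]; exact min_le_right _ _
  obtain ⟨C, hC0, hC⟩ := sum_log_low hk
  refine ⟨δ, hδ0, ?_⟩
  have hlogt : Tendsto (fun x : ℕ => Real.log x) atTop atTop :=
    Real.tendsto_log_atTop.comp tendsto_natCast_atTop_atTop
  have hkx : ∀ᶠ x : ℕ in atTop, k.natAbs < 3 * x ^ 2 + 3 * x + 1 := by
    filter_upwards [eventually_ge_atTop (k.natAbs)] with x hx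
    nlinarith
  have hlog1 : ∀ᶠ x : ℕ in atTop, 3 * Real.log ((x : ℝ) + 1) ≤ 4 * Real.log x := by
    filter_upwards [hlogt.eventually_ge_atTop (3 * Real.log 2), eventually_ge_atTop 1] with x hx hx1
    have hx1' : (1 : ℝ) ≤ x := by exact_mod_cast hx1
    have h1 : Real.log ((x : ℝ) + 1) ≤ Real.log (2 * x) := Real.log_le_log (by linarith) (by linarith)
    rw [Real.log_mul (by norm_num) (by linarith)] at h1
    linarith
  filter_upwards [hG, sumA hk hM (η / 20) (by positivity), hkx, hlog1, eventually_ge_atTop 2,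
    hlogt.eventually_ge_atTop (20 * C / η), hlogt.eventually_ge_atTop 1] with x xG xA xk xl x2 xC xl1
  obtain ⟨G, hGs, hGc, hGm⟩ := xG
  obtain ⟨E, hE⟩ : ∃ E : Finset ℕ, E = (Icc 1 x).filter (fun m => ∃ p : ℕ, p.Prime ∧
    (x : ℝ) ^ (1 + δ) < p ∧ p ∣ FF k m) := ⟨_, rfl⟩
  have hEs : E ⊆ Icc 1 x := by
    rw [hE]
    exact filter_subset _ _
  refine ⟨E, hEs, ?_, fun m hm => ?_⟩
  swap
  · rw [hE, mem_filter] at hm
    exact hm.2
  by_contra hcon
  push Not at hcon
  have hx2 : (2 : ℝ) ≤ x := by exact_mod_cast x2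
  have hx0 : (0 : ℝ) < x := by linarith
  have hl0 : 0 < Real.log x := by linarith
  obtain ⟨y, hy⟩ : ∃ y : ℝ, y = (x : ℝ) ^ (1 + δ) := ⟨_, rfl⟩
  have hy1 : 1 ≤ y := by
    rw [hy]
    exact Real.one_le_rpow (by linarith) (by linarith)
  have hly : Real.log y = (1 + δ) * Real.log x := by
    rw [hy, Real.log_rpow hx0]
  have hFx : ∀ m ∈ Icc 1 x, FF k m < (x + 1) ^ 3 := by
    intro m hm
    rw [mem_Icc] at hm
    refine (FF_le k hm.2).trans_lt ?_
    have : (x + 1) ^ 3 = x ^ 3 + (3 * x ^ 2 + 3 * x + 1) := by ring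
    omega
  -- the bound for each `m`
  have hm : ∀ m ∈ Icc 1 x, Real.log (FF k m) ≤
      (∑ p ∈ Nat.primesLE x, ((FF k m).factorization p : ℝ) * Real.log p) +
        (2 * (1 + δ) * Real.log x - (if m ∈ G \ E then (1 + δ) * Real.log x else 0) +
          (if m ∈ E then 4 * Real.log x else 0)) := by
    intro m hm
    obtain ⟨r, hr1, hrF, hlog, hr⟩ := split (F := FF k m) (x := x) (FF_ne hk m)
    have hr0 : (0 : ℝ) < r := by exact_mod_cast hr1
    rw [hlog]
    refine add_le_add le_rfl ?_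
    by_cases hmE : m ∈ E
    · rw [if_pos hmE, if_neg (fun h => (Finset.mem_sdiff.1 h).2 hmE)]
      have h1 : (r : ℝ) ≤ ((x : ℝ) + 1) ^ 3 := by exact_mod_cast hrF.trans (hFx m hm).le
      have h2 := Real.log_le_log hr0 h1
      rw [Real.log_pow] at h2
      push_cast at h2
      have h3 : 0 ≤ 2 * (1 + δ) * Real.log x := by positivity
      linarith
    · rw [if_neg hmE]
      have hpy : ∀ p : ℕ, p.Prime → p ∣ FF k m → (p : ℝ) ≤ y := by
        intro p hp hpd
        by_contra hlt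
        push Not at hlt
        apply hmE
        rw [hE, mem_filter]
        exact ⟨hm, p, hp, by rw [← hy]; exact hlt, hpd⟩
      obtain ⟨h1, h2⟩ := hr (hFx m hm) y hy1 hpy
      by_cases hmG : m ∈ G \ E
      · rw [if_pos hmG]
        rcases h2 with h2 | h2
        · have h3 := Real.log_le_log hr0 h2
          rw [hly] at h3
          linarith
        · exfalso
          obtain ⟨n, hn9, hnd, hnp⟩ := hGm m (Finset.mem_sdiff.1 hmG).1
          have h3 := h2 n hnd hnp
          have h4 := hFx m hm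
          have h5 : (x + 1) * (x + 1) ^ 2 ≤ n * (x + 1) ^ 2 := Nat.mul_le_mul_right _ (by omega)
          have h6 : (x + 1) * (x + 1) ^ 2 = (x + 1) ^ 3 := by ring
          omega
      · rw [if_neg hmG]
        have h3 := Real.log_le_log hr0 h1
        rw [Real.log_pow, hly] at h3
        push_cast at h3
        linarith
  have hsum := sum_le_sum hm
  rw [sum_add_distrib, sum_add_distrib, sum_sub_distrib] at hsum
  have e1 : ∑ _m ∈ Icc 1 x, 2 * (1 + δ) * Real.log x = x * (2 * (1 + δ) * Real.log x) := by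
    rw [sum_const, Nat.card_Icc, nsmul_eq_mul, Nat.add_sub_cancel]
  have e2 : ∑ m ∈ Icc 1 x, (if m ∈ G \ E then (1 + δ) * Real.log x else 0) =
      (G \ E).card * ((1 + δ) * Real.log x) := by
    rw [← sum_filter, sum_const, nsmul_eq_mul]
    congr 3
    ext m
    rw [mem_filter]
    exact ⟨fun h => h.2, fun h => ⟨hGs (Finset.mem_sdiff.1 h).1, h⟩⟩
  have e3 : ∑ m ∈ Icc 1 x, (if m ∈ E then 4 * Real.log x else 0) = E.card * (4 * Real.log x) := by
    rw [← sum_filter, sum_const, nsmul_eq_mul]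
    congr 3
    ext m
    rw [mem_filter]
    exact ⟨fun h => h.2, fun h => ⟨hEs h, h⟩⟩
  rw [e1, e2, e3] at hsum
  have hlow := hC x (by omega)
  have hGE : η * x - δ * x ≤ (G \ E).card := by
    have h1 : G.card ≤ (G \ E).card + E.card := by
      have := card_le_card_sdiff_add_card (s := G) (t := E)
      omega
    have h2 : (G.card : ℝ) ≤ (G \ E).card + E.card := by exact_mod_cast h1
    linarith
  have hEc : (E.card : ℝ) * (4 * Real.log x) ≤ δ * x * (4 * Real.log x) :=
    mul_le_mul_of_nonneg_right hcon.le (by positivity)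
  have hGl : (η * x - δ * x) * ((1 + δ) * Real.log x) ≤ (G \ E).card * ((1 + δ) * Real.log x) :=
    mul_le_mul_of_nonneg_right hGE (by positivity)
  have hCx : C * x ≤ η / 20 * (x * Real.log x) := by
    have h1 : 20 * C / η * (η / 20 * x) ≤ Real.log x * (η / 20 * x) :=
      mul_le_mul_of_nonneg_right xC (by positivity)
    have h2 : 20 * C / η * (η / 20 * x) = C * x := by
      field_simp
    linarith
  obtain ⟨T, hT⟩ : ∃ T : ℝ, T = x * Real.log x := ⟨_, rfl⟩
  have hT0 : 0 < T := by rw [hT]; positivity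
  have f1 : x * (2 * (1 + δ) * Real.log x) = (2 + 2 * δ) * T := by rw [hT]; ring
  have f2 : δ * x * (4 * Real.log x) = 4 * δ * T := by rw [hT]; ring
  have f3 : (η * x - δ * x) * ((1 + δ) * Real.log x) = (η - δ) * (1 + δ) * T := by rw [hT]; ring
  rw [← hT] at hlow hCx xA
  rw [f1] at hsum
  rw [f2] at hEc
  rw [f3] at hGl
  have g1 : (η - δ) * (1 + δ) * T ≤ (η / 20 + η / 20 + 6 * δ) * T := by linarith
  have g2 := le_of_mul_le_mul_right g1 hT0
  nlinarith

end Pool.Agent.H92.LP
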