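import Pool.Agent.H92.LP.Cheb
import Pool.Agent.H23.LP.Hl
import Pool.Agent.H23.LP.M1

/-!
# MP_4d57ea_nt, LP: chapter (C) in the notation of H23/LP, and the final form of the theorem (helper92)
-/

set_option autoImplicit false

namespace Pool.Agent.H92.LP

open Finset Filter Topology

theorem rk_eq_nu (k : ℤ) {p : ℕ} (hp : 0 < p) : rk k p = H23.LP.nu k p := by
  unfold rk H23.LP.nu
  have hi : ∀ t : ℕ, t < p → (((p - t) % p : ℕ) : ℤ) ≡ -(t : ℤ) [ZMOD p] := by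
    intro t ht
    have h1 : (((p - t) % p : ℕ) : ℤ) = ((p - t : ℕ) : ℤ) % p := by push_cast; rfl
    rw [h1]
    refine (Int.mod_modEq _ _).trans ?_
    rw [Nat.cast_sub ht.le]
    have h2 : (p : ℤ) - t ≡ 0 - t [ZMOD p] := Int.ModEq.sub_right _ (by
      rw [Int.modEq_zero_iff_dvd])
    rwa [zero_sub] at h2
  have hinv : ∀ t : ℕ, t < p → (p - (p - t) % p) % p = t := by
    intro t ht
    rcases Nat.eq_zero_or_pos t with rfl | h0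
    · rw [Nat.sub_zero, Nat.mod_self, Nat.sub_zero, Nat.mod_self]
    · rw [Nat.mod_eq_of_lt (show p - t < p by omega)]
      have h1 : p - (p - t) = t := by omega
      rw [h1, Nat.mod_eq_of_lt ht]
  refine card_bij' (fun t _ => (p - t) % p) (fun t _ => (p - t) % p) ?_ ?_ ?_ ?_
  · intro t ht
    rw [mem_filter, mem_range] at ht ⊢
    refine ⟨Nat.mod_lt _ hp, ?_⟩
    have h1 := hi t ht.1
    have h2 : (((p - t) % p : ℕ) : ℤ) ^ 3 - k ≡ (-(t : ℤ)) ^ 3 - k [ZMOD p] := (h1.pow 3).sub_right k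
    refine (Int.ModEq.dvd_iff h2).2 ?_
    have h3 := FF_dvd.1 ht.2
    have h4 : (-(t : ℤ)) ^ 3 - k = -((t : ℤ) ^ 3 + k) := by ring
    rw [h4]
    exact h3.neg_right
  · intro t ht
    rw [mem_filter, mem_range] at ht ⊢
    refine ⟨Nat.mod_lt _ hp, ?_⟩
    rw [FF_dvd]
    have h1 := hi t ht.1
    have h2 : (((p - t) % p : ℕ) : ℤ) ^ 3 + k ≡ (-(t : ℤ)) ^ 3 + k [ZMOD p] := (h1.pow 3).add_right k
    refine (Int.ModEq.dvd_iff h2).2 ?_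
    have h4 : (-(t : ℤ)) ^ 3 + k = -((t : ℤ) ^ 3 - k) := by ring
    rw [h4]
    exact ht.2.neg_right
  · intro t ht
    rw [mem_filter, mem_range] at ht
    exact hinv t ht.1
  · intro t ht
    rw [mem_filter, mem_range] at ht
    exact hinv t ht.1

theorem mer_rk {k : ℤ} (hk : ∀ a : ℤ, a ^ 3 ≠ k) : ∀ e : ℝ, 0 < e → ∀ᶠ x : ℕ in atTop,
    ∑ p ∈ Nat.primesLE x, (rk k p : ℝ) * Real.log p / p ≤ (1 + e) * Real.log x := by
  intro e he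
  obtain ⟨x0, hx0⟩ := H23.LP.mer1 k hk e he
  filter_upwards [tendsto_natCast_atTop_atTop.eventually_ge_atTop x0] with x hx
  have h1 := (abs_le.1 (hx0 x hx)).2
  rw [Nat.floor_natCast] at h1
  have h2 : ∑ p ∈ Nat.primesLE x, (rk k p : ℝ) * Real.log p / p =
      ∑ p ∈ (Icc 1 x).filter Nat.Prime, (H23.LP.nu k p : ℝ) * Real.log p / p := by
    refine sum_congr ?_ fun p hp => ?_
    · ext p
      rw [Nat.mem_primesLE, mem_filter, mem_Icc]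
      exact ⟨fun h => ⟨⟨h.2.one_le, h.1⟩, h.2⟩, fun h => ⟨h.1.2, h.2⟩⟩
    · rw [mem_filter, mem_Icc] at hp
      rw [rk_eq_nu k (by omega)]
  rw [h2]
  linarith

open Classical in
/-- **final form** -/
theorem largest (k : ℤ) (hk : ∀ t : ℤ, t ^ 3 ≠ k) : ∃ δ : ℝ, 0 < δ ∧ ∃ x0 : ℕ, ∀ x : ℕ, x0 ≤ x →
    δ * x ≤ (((Icc 1 x).filter fun m : ℕ => ∃ p : ℕ, p.Prime ∧ (x : ℝ) ^ (1 + δ) < p ∧
      (p : ℤ) ∣ (m : ℤ) ^ 3 + k).card : ℝ) := by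
  obtain ⟨η, δ1, hη, hδ1, x1, hx1⟩ := H23.LP.hlo k hk
  have hL : ∃ η : ℝ, 0 < η ∧ ∀ᶠ x : ℕ in atTop, ∃ G : Finset ℕ, G ⊆ Icc 1 x ∧ η * x ≤ G.card ∧
      ∀ m ∈ G, ∃ n : ℕ, 9 * x < n ∧ n ∣ FF k m ∧ ∀ p : ℕ, p.Prime → p ∣ n → p ≤ x := by
    refine ⟨η, hη, ?_⟩
    have h9 : ∀ᶠ x : ℕ in atTop, (9 : ℝ) ≤ (x : ℝ) ^ δ1 :=
      ((tendsto_rpow_atTop hδ1).comp tendsto_natCast_atTop_atTop).eventually_ge_atTop 9
    filter_upwards [h9, eventually_ge_atTop x1, eventually_ge_atTop 1] with x h9 hx hx1'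
    refine ⟨_, filter_subset _ _, hx1 x hx, fun m hm => ?_⟩
    rw [mem_filter] at hm
    obtain ⟨-, n, hn, hnd, hnp⟩ := hm
    refine ⟨n, ?_, FF_dvd.2 hnd, hnp⟩
    have hx0 : (0 : ℝ) < x := by exact_mod_cast hx1'
    have h10 : (9 * x : ℝ) ≤ (x : ℝ) ^ (1 + δ1) := by
      rw [Real.rpow_add hx0, Real.rpow_one]
      nlinarith
    have h11 : (9 * x : ℝ) < n := h10.trans_lt hn
    exact_mod_cast h11
  obtain ⟨δ, hδ, hE⟩ := cheb hk (mer_rk hk) hL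
  obtain ⟨x0, hx0⟩ := eventually_atTop.1 hE
  refine ⟨δ, hδ, x0, fun x hx => ?_⟩
  obtain ⟨E, hEs, hEc, hEp⟩ := hx0 x hx
  refine hEc.trans ?_
  have hsub : E ⊆ (Icc 1 x).filter fun m : ℕ => ∃ p : ℕ, p.Prime ∧ (x : ℝ) ^ (1 + δ) < p ∧
      (p : ℤ) ∣ (m : ℤ) ^ 3 + k := by
    intro m hm
    rw [mem_filter]
    obtain ⟨p, hp, hp1, hp2⟩ := hEp m hm
    exact ⟨hEs hm, p, hp, hp1, FF_dvd.1 hp2⟩
  exact_mod_cast card_le_card hsub

end Pool.Agent.H92.LP
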