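import Mathlib

/-!
# MP_4d57ea_nt, LP, chapter (C): roots of `m^3 + k` modulo prime powers (helper92)

`FF k m = |m^3 + k|`, `rk k q` = number of roots modulo `q`, `Nq k x q` = number of `m ≤ x` with `q ∣ m^3 + k`.
-/

set_option autoImplicit false

namespace Pool.Agent.H92.LP

open Finset

/-- `|m^3 + k|` -/
def FF (k : ℤ) (m : ℕ) : ℕ := ((m : ℤ) ^ 3 + k).natAbs

/-- number of roots of `m^3 + k` modulo `q` -/
def rk (k : ℤ) (q : ℕ) : ℕ := ((range q).filter (fun t => q ∣ FF k t)).card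

/-- number of `m ≤ x` with `q ∣ m^3 + k` -/
def Nq (k : ℤ) (x q : ℕ) : ℕ := ((Icc 1 x).filter (fun m => q ∣ FF k m)).card

theorem FF_dvd {k : ℤ} {q m : ℕ} : q ∣ FF k m ↔ (q : ℤ) ∣ (m : ℤ) ^ 3 + k :=
  Int.natCast_dvd.symm

theorem FF_ne {k : ℤ} (hk : ∀ a : ℤ, a ^ 3 ≠ k) (m : ℕ) : FF k m ≠ 0 := by
  intro h
  unfold FF at h
  rw [Int.natAbs_eq_zero] at h
  apply hk (-(m : ℤ))
  linarith [h, (by ring : (-(m : ℤ)) ^ 3 = -((m : ℤ) ^ 3))]

theorem FF_mod (k : ℤ) (q m : ℕ) : q ∣ FF k m ↔ q ∣ FF k (m % q) := by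
  rw [FF_dvd, FF_dvd]
  have h1 : ((m % q : ℕ) : ℤ) ≡ (m : ℤ) [ZMOD q] := by
    push_cast
    exact Int.mod_modEq _ _
  have h2 : ((m % q : ℕ) : ℤ) ^ 3 + k ≡ (m : ℤ) ^ 3 + k [ZMOD q] := (h1.pow 3).add_right k
  exact (Int.ModEq.dvd_iff h2).symm

/-- third divided difference -/
theorem vdm {k q a b c d : ℤ} (ha : q ∣ a ^ 3 + k) (hb : q ∣ b ^ 3 + k) (hc : q ∣ c ^ 3 + k)
    (hd : q ∣ d ^ 3 + k) : q ∣ (a - b) * (a - c) * (a - d) * (b - c) * (b - d) * (c - d) := by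
  have h : (a - b) * (a - c) * (a - d) * (b - c) * (b - d) * (c - d) =
      (a ^ 3 + k) * ((b - c) * (b - d) * (c - d)) - (b ^ 3 + k) * ((a - c) * (a - d) * (c - d)) +
      (c ^ 3 + k) * ((a - b) * (a - d) * (b - d)) - (d ^ 3 + k) * ((a - b) * (a - c) * (b - c)) := by
    ring
  rw [h]
  exact dvd_sub (dvd_add (dvd_sub (ha.mul_right _) (hb.mul_right _)) (hc.mul_right _))
    (hd.mul_right _)

theorem card_le_three (S : Finset ℕ) (h : ∀ a ∈ S, ∀ b ∈ S, ∀ c ∈ S, ∀ d ∈ S, a < b → b < c →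
    c < d → False) : S.card ≤ 3 := by
  by_contra hc
  push Not at hc
  obtain ⟨T, hTS, hT⟩ := exists_subset_card_eq (show 4 ≤ S.card by omega)
  have hm : ∀ i : Fin 4, T.orderEmbOfFin hT i ∈ S := fun i => hTS (T.orderEmbOfFin_mem hT i)
  have hlt : ∀ i j : Fin 4, i < j → T.orderEmbOfFin hT i < T.orderEmbOfFin hT j := fun i j hij =>
    (T.orderEmbOfFin hT).strictMono hij
  exact h _ (hm 0) _ (hm 1) _ (hm 2) _ (hm 3) (hlt 0 1 (by decide)) (hlt 1 2 (by decide))
    (hlt 2 3 (by decide))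

/-- at most three roots in a short interval -/
theorem card_short {k : ℤ} {q y u : ℕ} (hq : y ^ 6 < q) (S : Finset ℕ)
    (hS : ∀ m ∈ S, u ≤ m ∧ m ≤ u + y ∧ q ∣ FF k m) : S.card ≤ 3 := by
  refine card_le_three S fun a ha b hb c hc d hd hab hbc hcd => ?_
  obtain ⟨a1, a2, a3⟩ := hS a ha
  obtain ⟨b1, b2, b3⟩ := hS b hb
  obtain ⟨c1, c2, c3⟩ := hS c hc
  obtain ⟨d1, d2, d3⟩ := hS d hd
  rw [FF_dvd] at a3 b3 c3 d3
  have h := vdm d3 c3 b3 a3
  have e1 : ((d : ℤ) - c) = ((d - c : ℕ) : ℤ) := by push_cast [hcd.le]; ring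
  have e2 : ((d : ℤ) - b) = ((d - b : ℕ) : ℤ) := by push_cast [(hbc.trans hcd).le]; ring
  have e3 : ((d : ℤ) - a) = ((d - a : ℕ) : ℤ) := by push_cast [((hab.trans hbc).trans hcd).le]; ring
  have e4 : ((c : ℤ) - b) = ((c - b : ℕ) : ℤ) := by push_cast [hbc.le]; ring
  have e5 : ((c : ℤ) - a) = ((c - a : ℕ) : ℤ) := by push_cast [(hab.trans hbc).le]; ring
  have e6 : ((b : ℤ) - a) = ((b - a : ℕ) : ℤ) := by push_cast [hab.le]; ring
  rw [e1, e2, e3, e4, e5, e6] at h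
  have h' : q ∣ (d - c) * (d - b) * (d - a) * (c - b) * (c - a) * (b - a) := by exact_mod_cast h
  have hpos : 0 < (d - c) * (d - b) * (d - a) * (c - b) * (c - a) * (b - a) := by
    have p1 : 0 < d - c := by omega
    have p2 : 0 < d - b := by omega
    have p3 : 0 < d - a := by omega
    have p4 : 0 < c - b := by omega
    have p5 : 0 < c - a := by omega
    have p6 : 0 < b - a := by omega
    positivity
  have hle := Nat.le_of_dvd hpos h'
  have hub : (d - c) * (d - b) * (d - a) * (c - b) * (c - a) * (b - a) ≤ y * y * y * y * y * y := by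
    gcongr <;> omega
  have h6 : y * y * y * y * y * y = y ^ 6 := by ring
  omega

/-- general bound -/
theorem Nq_gen (k : ℤ) (x q y : ℕ) (hy : 1 ≤ y) (hq : y ^ 6 < q) : Nq k x q ≤ 3 * (x / y + 1) := by
  unfold Nq
  refine (card_le_mul_card_image (f := fun m => m / y) _ 3 fun j _ => ?_).trans ?_
  · refine card_short (k := k) (u := j * y) hq _ fun m hm => ?_
    rw [mem_filter, mem_filter] at hm
    have h1 : m / y = j := hm.2
    have h2 := Nat.div_add_mod m y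
    have h3 := Nat.mod_lt m (show 0 < y by omega)
    rw [h1] at h2
    rw [mul_comm j y]
    exact ⟨by omega, by omega, hm.1.2⟩
  · refine Nat.mul_le_mul_left 3 ?_
    have hsub : (((Icc 1 x).filter (fun m => q ∣ FF k m)).image (fun m => m / y)) ⊆
        range (x / y + 1) := by
      intro j hj
      rw [mem_image] at hj
      obtain ⟨m, hm, rfl⟩ := hj
      rw [mem_filter, mem_Icc] at hm
      rw [mem_range]
      exact Nat.lt_succ_of_le (Nat.div_le_div_right hm.1.2)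
    exact (card_le_card hsub).trans (le_of_eq (card_range _))

/-- bound by the number of roots -/
theorem Nq_rk (k : ℤ) (x q : ℕ) (hq : 1 ≤ q) : Nq k x q ≤ (x / q + 1) * rk k q := by
  unfold Nq
  refine (card_le_mul_card_image (f := fun m => m % q) _ (x / q + 1) fun j _ => ?_).trans ?_
  · have hinj : Set.InjOn (fun m => m / q)
        (((Icc 1 x).filter (fun m => q ∣ FF k m)).filter (fun m => m % q = j) : Finset ℕ) := by
      intro m hm m' hm' hmm
      rw [mem_coe, mem_filter] at hm hm'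
      have h1 := Nat.div_add_mod m q
      have h2 := Nat.div_add_mod m' q
      have h3 : m / q = m' / q := hmm
      rw [hm.2, h3] at h1
      rw [hm'.2] at h2
      omega
    rw [← card_image_of_injOn hinj]
    have hsub : ((((Icc 1 x).filter (fun m => q ∣ FF k m)).filter (fun m => m % q = j)).image
        (fun m => m / q)) ⊆ range (x / q + 1) := by
      intro i hi
      rw [mem_image] at hi
      obtain ⟨m, hm, rfl⟩ := hi
      rw [mem_filter, mem_filter, mem_Icc] at hm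
      rw [mem_range]
      exact Nat.lt_succ_of_le (Nat.div_le_div_right hm.1.1.2)
    exact (card_le_card hsub).trans (le_of_eq (card_range _))
  · refine Nat.mul_le_mul_left _ (card_le_card ?_)
    intro j hj
    rw [mem_image] at hj
    obtain ⟨m, hm, rfl⟩ := hj
    rw [mem_filter] at hm
    rw [mem_filter, mem_range]
    exact ⟨Nat.mod_lt m (by omega), (FF_mod k q m).1 hm.2⟩

/-- at most three roots modulo a power of a good prime -/
theorem rk_le {k : ℤ} {p a : ℕ} (hp : p.Prime) (hpk : ¬ (p : ℤ) ∣ 3 * k) (ha : 1 ≤ a) :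
    rk k (p ^ a) ≤ 3 := by
  have hpi : Prime (p : ℤ) := Nat.prime_iff_prime_int.1 hp
  have h3 : ¬ (p : ℤ) ∣ 3 := fun h => hpk (h.mul_right _)
  have hk : ¬ (p : ℤ) ∣ k := fun h => hpk (h.mul_left _)
  have hpa : (p : ℤ) ∣ (p : ℤ) ^ a := dvd_pow_self _ (by omega)
  have key : ∀ s t : ℕ, s < t → t < p ^ a → p ^ a ∣ FF k s → p ^ a ∣ FF k t → ¬ (p : ℤ) ∣ (t : ℤ) - s := by
    intro s t hst ht h1 h2 hd
    rw [FF_dvd] at h1 h2
    push_cast at h1 h2
    have h4 : ¬ (p : ℤ) ∣ (s : ℤ) := by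
      intro h5
      have h6 : (p : ℤ) ∣ (s : ℤ) ^ 3 := dvd_pow h5 (by norm_num)
      have h7 : (p : ℤ) ∣ (s : ℤ) ^ 3 + k := hpa.trans h1
      exact hk ((dvd_add_right h6).1 h7)
    have h5 : (p : ℤ) ^ a ∣ ((t : ℤ) - s) * ((t : ℤ) ^ 2 + t * s + (s : ℤ) ^ 2) := by
      have h6 := dvd_sub h2 h1
      have h7 : (t : ℤ) ^ 3 + k - ((s : ℤ) ^ 3 + k) = ((t : ℤ) - s) * ((t : ℤ) ^ 2 + t * s + (s : ℤ) ^ 2) := by
        ring
      rw [h7] at h6
      exact h6
    have h6 : ¬ (p : ℤ) ∣ ((t : ℤ) ^ 2 + t * s + (s : ℤ) ^ 2) := by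
      intro h7
      have h8 : (t : ℤ) ^ 2 + t * s + (s : ℤ) ^ 2 = ((t : ℤ) - s) * ((t : ℤ) + 2 * s) + 3 * (s : ℤ) ^ 2 := by
        ring
      rw [h8] at h7
      have h9 := (dvd_add_right (hd.mul_right ((t : ℤ) + 2 * s))).1 h7
      rcases hpi.dvd_or_dvd h9 with h10 | h10
      · exact h3 h10
      · exact h4 (hpi.dvd_of_dvd_pow h10)
    have h7 : IsCoprime ((p : ℤ) ^ a) ((t : ℤ) ^ 2 + t * s + (s : ℤ) ^ 2) :=
      IsCoprime.pow_left ((Prime.coprime_iff_not_dvd hpi).2 h6)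
    have h8 := h7.dvd_of_dvd_mul_right h5
    have h9 : ((t : ℤ) - s) = ((t - s : ℕ) : ℤ) := by push_cast [hst.le]; ring
    rw [h9] at h8
    have h10 : p ^ a ∣ t - s := by exact_mod_cast h8
    have h11 := Nat.le_of_dvd (by omega) h10
    omega
  unfold rk
  refine card_le_three _ fun a' ha' b hb c hc d hd hab hbc hcd => ?_
  rw [mem_filter, mem_range] at ha' hb hc hd
  have hdv : ∀ t : ℕ, p ^ a ∣ FF k t → (p : ℤ) ∣ (t : ℤ) ^ 3 + k := by
    intro t ht
    rw [FF_dvd] at ht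
    push_cast at ht
    exact hpa.trans ht
  have hv := vdm (hdv d hd.2) (hdv c hc.2) (hdv b hb.2) (hdv a' ha'.2)
  rcases hpi.dvd_or_dvd hv with hv | hv
  · rcases hpi.dvd_or_dvd hv with hv | hv
    · rcases hpi.dvd_or_dvd hv with hv | hv
      · rcases hpi.dvd_or_dvd hv with hv | hv
        · rcases hpi.dvd_or_dvd hv with hv | hv
          · exact key c d hcd hd.1 hc.2 hd.2 hv
          · exact key b d (hbc.trans hcd) hd.1 hb.2 hd.2 hv
        · exact key a' d ((hab.trans hbc).trans hcd) hd.1 ha'.2 hd.2 hv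
      · exact key b c hbc hc.1 hb.2 hc.2 hv
    · exact key a' c (hab.trans hbc) hc.1 ha'.2 hc.2 hv
  · exact key a' b hab hb.1 ha'.2 hb.2 hv

end Pool.Agent.H92.LP
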