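import Pool.Agent.H92.LP.Val

/-!
# MP_4d57ea_nt, LP, chapter (C): the primes `≤ x` give at most `(1 + e) x log x` (helper92)
-/

set_option autoImplicit false

namespace Pool.Agent.H92.LP

open Finset Filter Topology

private theorem log_div_sq (n : ℕ) : Real.log n / (n : ℝ) ^ 2 ≤ 2 * (1 / (n : ℝ) ^ (3 / 2 : ℝ)) := by
  rcases Nat.eq_zero_or_pos n with rfl | hn
  · simp
  have h1 : (1 : ℝ) ≤ n := by exact_mod_cast hn
  have h0 : (0 : ℝ) < n := by linarith
  have h2 : Real.log n ≤ 2 * (n : ℝ) ^ (1 / 2 : ℝ) := by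
    have h3 := Real.log_le_rpow_div h0.le (show (0 : ℝ) < 1 / 2 by norm_num)
    linarith
  have h3 : (n : ℝ) ^ (2 : ℕ) = (n : ℝ) ^ (1 / 2 : ℝ) * (n : ℝ) ^ (3 / 2 : ℝ) := by
    rw [← Real.rpow_add h0, ← Real.rpow_natCast]
    norm_num
  rw [h3]
  have h4 : 0 < (n : ℝ) ^ (1 / 2 : ℝ) := by positivity
  have h5 : 0 < (n : ℝ) ^ (3 / 2 : ℝ) := by positivity
  rw [div_le_iff₀ (by positivity)]
  calc Real.log n ≤ 2 * (n : ℝ) ^ (1 / 2 : ℝ) := h2
    _ = _ := by field_simp

private theorem sumC : ∃ C : ℝ, 0 ≤ C ∧ ∀ s : Finset ℕ, ∑ p ∈ s, Real.log p / (p : ℝ) ^ 2 ≤ C := by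
  have hs : Summable (fun n : ℕ => 2 * (1 / (n : ℝ) ^ (3 / 2 : ℝ))) :=
    (Real.summable_one_div_nat_rpow.2 (by norm_num)).mul_left 2
  refine ⟨∑' n : ℕ, 2 * (1 / (n : ℝ) ^ (3 / 2 : ℝ)), tsum_nonneg fun n => by positivity, fun s => ?_⟩
  refine (sum_le_sum fun p _ => log_div_sq p).trans ?_
  exact hs.sum_le_tsum s (fun n _ => by positivity)

/-- the primes `≤ x` -/
theorem sumA {k : ℤ} (hk : ∀ a : ℤ, a ^ 3 ≠ k)
    (hM : ∀ e : ℝ, 0 < e → ∀ᶠ x : ℕ in atTop,
      ∑ p ∈ Nat.primesLE x, (rk k p : ℝ) * Real.log p / p ≤ (1 + e) * Real.log x) :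
    ∀ e : ℝ, 0 < e → ∀ᶠ x : ℕ in atTop,
      ∑ m ∈ Icc 1 x, ∑ p ∈ Nat.primesLE x, ((FF k m).factorization p : ℝ) * Real.log p ≤
        (1 + e) * (x * Real.log x) := by
  intro e he
  obtain ⟨C, hC0, hC⟩ := sumC
  have hk0 : k ≠ 0 := by
    rintro rfl
    exact hk 0 (by norm_num)
  obtain ⟨K, hK⟩ : ∃ K : ℕ, K = (3 * k).natAbs := ⟨_, rfl⟩
  have hK0 : K ≠ 0 := by
    rw [hK, Int.natAbs_ne_zero]
    exact mul_ne_zero (by norm_num) hk0
  obtain ⟨Ck, hCk⟩ : ∃ Ck : ℝ, Ck = ∑ p ∈ K.primeFactors, Real.log p := ⟨_, rfl⟩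
  have hCk0 : 0 ≤ Ck := by
    rw [hCk]
    exact sum_nonneg fun p hp => Real.log_nonneg (by
      exact_mod_cast (Nat.prime_of_mem_primeFactors hp).one_le)
  have hlogt : Tendsto (fun x : ℕ => Real.log x) atTop atTop :=
    Real.tendsto_log_atTop.comp tendsto_natCast_atTop_atTop
  obtain ⟨D, hD⟩ : ∃ D : ℝ, D = 5 + 6 * C + 24 + 39 * Ck := ⟨_, rfl⟩
  have hpi : ∀ᶠ x : ℕ in atTop, (Nat.primeCounting x : ℝ) ≤ 2 * x / Real.log x := by
    have h1 := Chebyshev.eventually_primeCounting_le (ε := 1 / 2) (by norm_num)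
    have h2 := tendsto_natCast_atTop_atTop (R := ℝ) |>.eventually h1
    filter_upwards [h2, hlogt.eventually_gt_atTop 0] with x hx hl
    rw [Nat.floor_natCast] at hx
    refine hx.trans ?_
    have h3 : Real.log 4 + 1 / 2 ≤ 2 := by
      have : Real.log 4 = 2 * Real.log 2 := by
        rw [show (4 : ℝ) = 2 ^ 2 by norm_num, Real.log_pow]
        norm_num
      rw [this]
      have := Real.log_two_lt_d9
      linarith
    gcongr
  have hJx : ∀ᶠ x : ℕ in atTop, 8 * Real.log x + 1 ≤ (x : ℝ) := by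
    have h1 := (Real.isLittleO_log_id_atTop.bound (show (0 : ℝ) < 1 / 16 by norm_num))
    have h2 := tendsto_natCast_atTop_atTop (R := ℝ) |>.eventually h1
    filter_upwards [h2, eventually_ge_atTop 2] with x hx hx2
    have hx2' : (2 : ℝ) ≤ x := by exact_mod_cast hx2
    rw [Real.norm_of_nonneg (Real.log_nonneg (by linarith)), id,
      Real.norm_of_nonneg (by linarith)] at hx
    linarith
  have hkx : ∀ᶠ x : ℕ in atTop, k.natAbs ≤ x ^ 3 := by
    filter_upwards [eventually_ge_atTop (k.natAbs), eventually_ge_atTop 1] with x hx hx1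
    exact hx.trans (Nat.le_self_pow (by norm_num) x)
  filter_upwards [hM (e / 2) (by positivity), hpi, hJx, hkx, eventually_ge_atTop 3,
    hlogt.eventually_ge_atTop (2 * D / e), hlogt.eventually_ge_atTop 1] with x xM xpi xJ xk x3 xD xl
  obtain ⟨Y, hY⟩ : ∃ Y : ℕ, Y = x ^ 3 + k.natAbs := ⟨_, rfl⟩
  obtain ⟨J, hJ⟩ : ∃ J : ℕ, J = Nat.log 2 Y + 1 := ⟨_, rfl⟩
  have hx3 : (3 : ℝ) ≤ x := by exact_mod_cast x3
  have hx0 : (0 : ℝ) < x := by linarith
  have hY1 : 1 ≤ Y := by
    have := Nat.one_le_pow 3 x (by omega)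
    omega
  have hlY : Real.log Y ≤ 4 * Real.log x := by
    have h1 : (Y : ℝ) ≤ (x : ℝ) ^ 4 := by
      have h2 : Y ≤ x ^ 4 := by
        have h3 : x ^ 4 = x * x ^ 3 := by ring
        rw [hY, h3]
        have h4 : 3 * x ^ 3 ≤ x * x ^ 3 := Nat.mul_le_mul_right _ x3
        omega
      exact_mod_cast h2
    have h2 := Real.log_le_log (by exact_mod_cast hY1) h1
    rw [Real.log_pow] at h2
    exact_mod_cast h2
  have hlY0 : 0 ≤ Real.log Y := Real.log_nonneg (by exact_mod_cast hY1)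
  have hJ1 : (J : ℝ) ≤ x := by
    have h1 : (Nat.log 2 Y : ℝ) * Real.log 2 ≤ Real.log Y := by
      rw [← Real.log_pow]
      refine Real.log_le_log (by positivity) ?_
      exact_mod_cast Nat.pow_log_le_self 2 (by omega)
    have h2 := Real.log_two_gt_d9
    have h3 : (Nat.log 2 Y : ℝ) * (1 / 2) ≤ (Nat.log 2 Y : ℝ) * Real.log 2 :=
      mul_le_mul_of_nonneg_left (by linarith) (Nat.cast_nonneg _)
    have h4 : (Nat.log 2 Y : ℝ) ≤ 8 * Real.log x := by linarith
    rw [hJ]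
    push_cast
    linarith
  have hYJ : ∀ p : ℕ, p.Prime → x ^ 3 + k.natAbs < p ^ J := by
    intro p hp
    rw [← hY, hJ]
    exact (Nat.lt_pow_succ_log_self (by norm_num) Y).trans_le (Nat.pow_le_pow_left hp.two_le _)
  have hstep : ∑ m ∈ Icc 1 x, ∑ p ∈ Nat.primesLE x, ((FF k m).factorization p : ℝ) * Real.log p =
      ∑ p ∈ Nat.primesLE x, ∑ i ∈ Ico 1 J, (Nq k x (p ^ i) : ℝ) * Real.log p := by
    rw [sum_comm]
    refine sum_congr rfl fun p hp => ?_
    rw [Nat.mem_primesLE] at hp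
    rw [← sum_mul, ← sum_mul]
    congr 1
    have h1 := sum_val hk hp.2 (hYJ p hp.2)
    exact_mod_cast h1
  rw [hstep]
  have hp1 : ∀ p ∈ Nat.primesLE x, ∑ i ∈ Ico 1 J, (Nq k x (p ^ i) : ℝ) * Real.log p ≤
      x * (rk k p * Real.log p / p) + 3 * Real.log p + 6 * x * (Real.log p / p ^ 2) +
        3 * Real.log Y + (if p ∈ K.primeFactors then (39 * x) * Real.log p else 0) := by
    intro p hp
    rw [Nat.mem_primesLE] at hp
    have hlp : 0 ≤ Real.log p := Real.log_nonneg (by exact_mod_cast hp.2.one_le)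
    by_cases hd : (p : ℤ) ∣ 3 * k
    · have hmem : p ∈ K.primeFactors := by
        rw [Nat.mem_primeFactors]
        refine ⟨hp.2, ?_, hK0⟩
        rw [hK]
        exact Int.natCast_dvd.1 hd
      rw [if_pos hmem, ← sum_mul]
      have h1 := mul_le_mul_of_nonneg_right (bad k (x := x) (J := J) hp.2) hlp
      have h2 : (0 : ℝ) ≤ rk k p := Nat.cast_nonneg _
      have h3 : (0 : ℝ) ≤ x * (rk k p * Real.log p / p) + 3 * Real.log p +
          6 * x * (Real.log p / p ^ 2) + 3 * Real.log Y := by positivity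
      have h4 : (36 * x + 3 * J : ℝ) * Real.log p ≤ 39 * x * Real.log p :=
        mul_le_mul_of_nonneg_right (by linarith) hlp
      linarith
    · have h1 := good hk (x := x) (J := J) hp.2 hd (by omega)
      rw [← hY] at h1
      have h2 : (0 : ℝ) ≤ if p ∈ K.primeFactors then (39 * x) * Real.log p else 0 := by
        split_ifs
        · positivity
        · exact le_rfl
      linarith
  refine (sum_le_sum hp1).trans ?_
  rw [sum_add_distrib, sum_add_distrib, sum_add_distrib, sum_add_distrib, ← mul_sum, ← mul_sum,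
    ← mul_sum]
  have s1 : x * ∑ p ∈ Nat.primesLE x, (rk k p : ℝ) * Real.log p / p ≤ (1 + e / 2) * (x * Real.log x) := by
    have := mul_le_mul_of_nonneg_left xM hx0.le
    linarith
  have s2 : 3 * ∑ p ∈ Nat.primesLE x, Real.log p ≤ 5 * x := by
    rw [← Chebyshev.theta_eq_sum_primesLE_log]
    have h1 := Chebyshev.theta_le_log4_mul_x hx0.le
    have h3 : Real.log 4 ≤ 5 / 3 := by
      have : Real.log 4 = 2 * Real.log 2 := by
        rw [show (4 : ℝ) = 2 ^ 2 by norm_num, Real.log_pow]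
        norm_num
      rw [this]
      have := Real.log_two_lt_d9
      linarith
    have h4 := mul_le_mul_of_nonneg_right h3 hx0.le
    linarith
  have s3 : 6 * x * ∑ p ∈ Nat.primesLE x, Real.log p / (p : ℝ) ^ 2 ≤ 6 * x * C := by
    gcongr
    exact hC _
  have s4 : ∑ _p ∈ Nat.primesLE x, 3 * Real.log Y ≤ 24 * x := by
    rw [sum_const, Nat.primesLE_card_eq_primeCounting, nsmul_eq_mul]
    have hl0 : 0 < Real.log x := by linarith
    calc (Nat.primeCounting x : ℝ) * (3 * Real.log Y) ≤ (2 * x / Real.log x) * (3 * (4 * Real.log x)) := by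
          gcongr
      _ = 24 * x := by
          field_simp
          norm_num
  have s5 : ∑ p ∈ Nat.primesLE x, (if p ∈ K.primeFactors then (39 * x) * Real.log p else 0) ≤
      39 * x * Ck := by
    rw [← sum_filter, ← mul_sum, hCk]
    refine mul_le_mul_of_nonneg_left ?_ (by positivity)
    refine sum_le_sum_of_subset_of_nonneg (fun p hp => ?_) fun p hp _ => Real.log_nonneg (by
      exact_mod_cast (Nat.prime_of_mem_primeFactors hp).one_le)
    rw [mem_filter] at hp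
    exact hp.2
  have s6 : D * x ≤ e / 2 * (x * Real.log x) := by
    have h1 : 2 * D / e * (e / 2 * x) ≤ Real.log x * (e / 2 * x) :=
      mul_le_mul_of_nonneg_right xD (by positivity)
    have h2 : 2 * D / e * (e / 2 * x) = D * x := by
      field_simp
    linarith
  have s7 : D * x = 5 * x + 6 * x * C + 24 * x + 39 * x * Ck := by
    rw [hD]
    ring
  linarith

end Pool.Agent.H92.LP
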