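import Pool.Agent.H92.LP.Roots

/-!
# MP_4d57ea_nt, LP, chapter (C): valuations of `m^3 + k`, summed over `m ≤ x` (helper92)
-/

set_option autoImplicit false

namespace Pool.Agent.H92.LP

open Finset

theorem FF_le (k : ℤ) {x m : ℕ} (hm : m ≤ x) : FF k m ≤ x ^ 3 + k.natAbs := by
  unfold FF
  refine (Int.natAbs_add_le _ _).trans ?_
  rw [Int.natAbs_pow, Int.natAbs_natCast]
  exact Nat.add_le_add_right (Nat.pow_le_pow_left hm 3) _

theorem sum_val {k : ℤ} (hk : ∀ a : ℤ, a ^ 3 ≠ k) {x J p : ℕ} (hp : p.Prime)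
    (hJ : x ^ 3 + k.natAbs < p ^ J) :
    ∑ m ∈ Icc 1 x, (FF k m).factorization p = ∑ i ∈ Ico 1 J, Nq k x (p ^ i) := by
  have h1 : ∀ m ∈ Icc 1 x, (FF k m).factorization p =
      ∑ i ∈ Ico 1 J, if p ^ i ∣ FF k m then 1 else 0 := by
    intro m hm
    rw [mem_Icc] at hm
    rw [Nat.factorization_eq_card_pow_dvd_of_lt hp (Nat.pos_of_ne_zero (FF_ne hk m))
      ((FF_le k hm.2).trans_lt hJ), card_filter]
  rw [sum_congr rfl h1, sum_comm]
  refine sum_congr rfl fun i _ => ?_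
  rw [Nq, card_filter]

private theorem half_sum (n : ℕ) : ∑ i ∈ range (6 * n), (1 / 2 : ℝ) ^ (i / 6) = 12 - 12 * (1 / 2) ^ n := by
  induction n with
  | zero => simp
  | succ n ih =>
    have h1 : 6 * (n + 1) = 6 * n + 1 + 1 + 1 + 1 + 1 + 1 := by ring
    rw [h1, sum_range_succ, sum_range_succ, sum_range_succ, sum_range_succ, sum_range_succ,
      sum_range_succ, ih]
    have e0 : 6 * n / 6 = n := by omega
    have e1 : (6 * n + 1) / 6 = n := by omega
    have e2 : (6 * n + 1 + 1) / 6 = n := by omega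
    have e3 : (6 * n + 1 + 1 + 1) / 6 = n := by omega
    have e4 : (6 * n + 1 + 1 + 1 + 1) / 6 = n := by omega
    have e5 : (6 * n + 1 + 1 + 1 + 1 + 1) / 6 = n := by omega
    rw [e0, e1, e2, e3, e4, e5]
    ring

/-- bad primes -/
theorem bad (k : ℤ) {x J p : ℕ} (hp : p.Prime) :
    ∑ i ∈ Ico 1 J, (Nq k x (p ^ i) : ℝ) ≤ 36 * x + 3 * J := by
  have h1 : ∀ i ∈ Ico 1 J, (Nq k x (p ^ i) : ℝ) ≤ 3 * (x * (1 / 2 : ℝ) ^ ((i - 1) / 6) + 1) := by
    intro i hi
    rw [mem_Ico] at hi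
    have h2 := Nq_gen k x (p ^ i) (p ^ ((i - 1) / 6)) (Nat.one_le_pow _ _ hp.pos) (by
      rw [← pow_mul]
      exact Nat.pow_lt_pow_right hp.one_lt (by omega))
    have h3 : (Nq k x (p ^ i) : ℝ) ≤ 3 * (((x / p ^ ((i - 1) / 6) : ℕ) : ℝ) + 1) := by
      exact_mod_cast h2
    have h4 : ((x / p ^ ((i - 1) / 6) : ℕ) : ℝ) ≤ x * (1 / 2 : ℝ) ^ ((i - 1) / 6) := by
      refine Nat.cast_div_le.trans ?_
      push_cast
      rw [div_eq_mul_inv]
      refine mul_le_mul_of_nonneg_left ?_ (Nat.cast_nonneg x)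
      rw [one_div, inv_pow]
      have h5 : (2 : ℝ) ≤ p := by exact_mod_cast hp.two_le
      gcongr
    linarith
  refine (sum_le_sum h1).trans ?_
  rw [← mul_sum, sum_add_distrib, ← mul_sum]
  have h2 : ∑ i ∈ Ico 1 J, (1 / 2 : ℝ) ^ ((i - 1) / 6) ≤ 12 := by
    rw [sum_Ico_eq_sum_range]
    have h3 : ∀ i ∈ range (J - 1), (1 / 2 : ℝ) ^ ((1 + i - 1) / 6) = (1 / 2 : ℝ) ^ (i / 6) := by
      intro i _
      rw [Nat.add_sub_cancel_left]
    rw [sum_congr rfl h3]
    have h4 : ∑ i ∈ range (J - 1), (1 / 2 : ℝ) ^ (i / 6) ≤ ∑ i ∈ range (6 * J), (1 / 2 : ℝ) ^ (i / 6) := by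
      refine sum_le_sum_of_subset_of_nonneg (fun i hi => ?_) fun i _ _ => by positivity
      rw [mem_range] at hi ⊢
      omega
    rw [half_sum] at h4
    have h5 : (0 : ℝ) ≤ 12 * (1 / 2) ^ J := by positivity
    linarith
  have h3 : ∑ _i ∈ Ico 1 J, (1 : ℝ) ≤ J := by
    rw [sum_const, Nat.card_Ico, nsmul_eq_mul, mul_one]
    exact_mod_cast Nat.sub_le J 1
  have h4 : (0 : ℝ) ≤ x := Nat.cast_nonneg x
  nlinarith

/-- good primes -/
theorem good {k : ℤ} (hk : ∀ a : ℤ, a ^ 3 ≠ k) {x J p : ℕ} (hp : p.Prime)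
    (hpk : ¬ (p : ℤ) ∣ 3 * k) (hx : 1 ≤ x) :
    ∑ i ∈ Ico 1 J, (Nq k x (p ^ i) : ℝ) * Real.log p ≤
      x * (rk k p * Real.log p / p) + 3 * Real.log p + 6 * x * (Real.log p / p ^ 2) +
        3 * Real.log ((x ^ 3 + k.natAbs : ℕ) : ℝ) := by
  obtain ⟨Y, hY⟩ : ∃ Y : ℕ, Y = x ^ 3 + k.natAbs := ⟨_, rfl⟩
  rw [← hY]
  have hY1 : 1 ≤ Y := by
    have := Nat.one_le_pow 3 x hx
    omega
  have hp2 : (2 : ℝ) ≤ p := by exact_mod_cast hp.two_le
  have hp0 : (0 : ℝ) < p := by linarith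
  have hlp : 0 ≤ Real.log p := Real.log_nonneg (by linarith)
  have hx0 : (0 : ℝ) ≤ x := Nat.cast_nonneg x
  have hlY : 0 ≤ Real.log Y := Real.log_nonneg (by exact_mod_cast hY1)
  -- the first power
  have hone : (Nq k x (p ^ 1) : ℝ) * Real.log p ≤ x * (rk k p * Real.log p / p) + 3 * Real.log p := by
    have h1 := Nq_rk k x p hp.one_le
    have h2 : (Nq k x p : ℝ) ≤ (((x / p : ℕ) : ℝ) + 1) * rk k p := by exact_mod_cast h1
    have h3 : ((x / p : ℕ) : ℝ) ≤ x / p := Nat.cast_div_le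
    have h4 : (rk k p : ℝ) ≤ 3 := by
      have := rk_le hp hpk (le_refl 1)
      rw [pow_one] at this
      exact_mod_cast this
    have h5 : (0 : ℝ) ≤ rk k p := Nat.cast_nonneg _
    rw [pow_one]
    calc (Nq k x p : ℝ) * Real.log p ≤ ((x / p + 1) * rk k p) * Real.log p := by
          refine mul_le_mul_of_nonneg_right (h2.trans ?_) hlp
          exact mul_le_mul_of_nonneg_right (by linarith) h5
      _ = x * (rk k p * Real.log p / p) + rk k p * Real.log p := by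
          field_simp
      _ ≤ _ := by
          have := mul_le_mul_of_nonneg_right h4 hlp
          linarith
  -- higher powers
  have hhigh : ∀ i ∈ Ico 2 J, (Nq k x (p ^ i) : ℝ) * Real.log p ≤
      3 * x * Real.log p * (1 / p ^ 2 * (1 / 2) ^ (i - 2)) +
        (if p ^ i ≤ Y then 3 * Real.log p else 0) := by
    intro i hi
    rw [mem_Ico] at hi
    by_cases hiY : p ^ i ≤ Y
    · rw [if_pos hiY]
      have h1 := Nq_rk k x (p ^ i) (Nat.one_le_pow _ _ hp.pos)
      have h2 : (Nq k x (p ^ i) : ℝ) ≤ (((x / p ^ i : ℕ) : ℝ) + 1) * rk k (p ^ i) := by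
        exact_mod_cast h1
      have h3 : ((x / p ^ i : ℕ) : ℝ) ≤ x * (1 / p ^ 2 * (1 / 2) ^ (i - 2)) := by
        refine Nat.cast_div_le.trans ?_
        push_cast
        rw [div_eq_mul_inv]
        refine mul_le_mul_of_nonneg_left ?_ hx0
        obtain ⟨j, rfl⟩ : ∃ j, i = j + 2 := ⟨i - 2, by omega⟩
        rw [Nat.add_sub_cancel, pow_add, mul_inv, mul_comm, one_div, one_div, inv_pow]
        refine mul_le_mul_of_nonneg_left ?_ (by positivity)
        gcongr
      have h4 : (rk k (p ^ i) : ℝ) ≤ 3 := by exact_mod_cast rk_le hp hpk (by omega)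
      have h5 : (0 : ℝ) ≤ rk k (p ^ i) := Nat.cast_nonneg _
      have h6 : 0 ≤ x * (1 / p ^ 2 * (1 / 2) ^ (i - 2) : ℝ) := by positivity
      calc (Nq k x (p ^ i) : ℝ) * Real.log p
          ≤ ((x * (1 / p ^ 2 * (1 / 2) ^ (i - 2)) + 1) * 3) * Real.log p := by
            refine mul_le_mul_of_nonneg_right (h2.trans ?_) hlp
            exact mul_le_mul (by linarith) h4 h5 (by linarith)
        _ = _ := by ring
    · rw [if_neg hiY, add_zero]
      have h1 : Nq k x (p ^ i) = 0 := by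
        unfold Nq
        rw [card_eq_zero, filter_eq_empty_iff]
        intro m hm hd
        rw [mem_Icc] at hm
        have h2 := Nat.le_of_dvd (Nat.pos_of_ne_zero (FF_ne hk m)) hd
        have h3 := FF_le k hm.2
        omega
      rw [h1, Nat.cast_zero, zero_mul]
      positivity
  rcases Nat.lt_or_ge 1 J with hJ | hJ
  · rw [sum_eq_sum_Ico_succ_bot hJ]
    have h1 := sum_le_sum hhigh
    rw [sum_add_distrib, ← mul_sum, ← mul_sum] at h1
    have h2 : ∑ i ∈ Ico 2 J, (1 / 2 : ℝ) ^ (i - 2) ≤ 2 := by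
      rw [sum_Ico_eq_sum_range]
      have h3 : ∀ i ∈ range (J - 2), (1 / 2 : ℝ) ^ (2 + i - 2) = (1 / 2 : ℝ) ^ i := by
        intro i _
        rw [Nat.add_sub_cancel_left]
      rw [sum_congr rfl h3]
      have h4 := sum_le_hasSum (range (J - 2)) (fun i _ => by positivity) hasSum_geometric_two
      exact h4
    have h3 : ∑ i ∈ Ico 2 J, (if p ^ i ≤ Y then 3 * Real.log p else 0) ≤ 3 * Real.log Y := by
      rw [← sum_filter, sum_const, nsmul_eq_mul]
      have h4 : ((Ico 2 J).filter (fun i => p ^ i ≤ Y)).card ≤ Nat.log p Y := by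
        have hsub : (Ico 2 J).filter (fun i => p ^ i ≤ Y) ⊆ Icc 1 (Nat.log p Y) := by
          intro i hi
          rw [mem_filter, mem_Ico] at hi
          rw [mem_Icc]
          exact ⟨by omega, Nat.le_log_of_pow_le hp.one_lt hi.2⟩
        refine (card_le_card hsub).trans (le_of_eq ?_)
        rw [Nat.card_Icc]
        omega
      have h5 : (Nat.log p Y : ℝ) * Real.log p ≤ Real.log Y := by
        rw [← Real.log_pow]
        refine Real.log_le_log (by positivity) ?_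
        exact_mod_cast Nat.pow_log_le_self p (by omega)
      have h6 : (((Ico 2 J).filter (fun i => p ^ i ≤ Y)).card : ℝ) ≤ Nat.log p Y := by
        exact_mod_cast h4
      have h7 := mul_le_mul_of_nonneg_right h6 hlp
      linarith
    have h4 : 3 * x * Real.log p * (1 / p ^ 2 * ∑ i ∈ Ico 2 J, (1 / 2 : ℝ) ^ (i - 2)) ≤
        6 * x * (Real.log p / p ^ 2) := by
      calc 3 * x * Real.log p * (1 / p ^ 2 * ∑ i ∈ Ico 2 J, (1 / 2 : ℝ) ^ (i - 2))
          ≤ 3 * x * Real.log p * (1 / p ^ 2 * 2) := by gcongr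
        _ = _ := by ring
    have h5 : ∑ i ∈ Ico (1 + 1) J, (Nq k x (p ^ i) : ℝ) * Real.log p =
      ∑ i ∈ Ico 2 J, (Nq k x (p ^ i) : ℝ) * Real.log p := rfl
    rw [h5]
    linarith
  · have h1 : Ico 1 J = ∅ := by
      rw [Ico_eq_empty_iff]
      omega
    rw [h1, sum_empty]
    have h2 : (0 : ℝ) ≤ rk k p := Nat.cast_nonneg _
    positivity

end Pool.Agent.H92.LP
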